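import Pool.Agent.helper88.WB.MDefs

/-!
helper39.  Module WB-MA3 of part M (helper88) of helper21's project on MP_7b8095_gt:
Klein model and Gromov products.
-/

set_option autoImplicit false
open Matrix MeasureTheory Filter Topology

namespace Pool.Agent.helper88.WB
open Pool.Agent.helper21.WB

namespace MA3

theorem cz (y : X) : ch 0 y = lift y o := by
  unfold ch
  rw [bl_apply]
  have h0 : lift 0 o = 1 := by rw [lift_zero]; simp
  simp only [lift_inl, h0, Pi.zero_apply, zero_mul, Finset.sum_const_zero, one_mul]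
  ring

theorem cz' (y : X) : ch y 0 = lift y o := by rw [ch_comm, cz]

theorem lo_pos (y : X) : 0 < lift y o := lt_of_lt_of_le one_pos (lift_o_pos y)

theorem kp_apply (x : X) (i : Fin 4) : kp x i = x i / lift x o := rfl

theorem sum_kp_sq (x : X) : ∑ i, kp x i ^ 2 = (∑ i, x i ^ 2) / (1 + ∑ i, x i ^ 2) := by
  simp only [kp_apply, div_pow, lift_o_sq]
  rw [Finset.sum_div]

theorem exp_le (x : ℝ) : Real.exp x / 2 ≤ Real.cosh x := by
  rw [Real.cosh_eq]
  have := Real.exp_pos (-x)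
  linarith

theorem le_exp {x : ℝ} (hx : 0 ≤ x) : Real.cosh x ≤ Real.exp x := by
  rw [Real.cosh_eq]
  have : Real.exp (-x) ≤ Real.exp x := Real.exp_le_exp.mpr (by linarith)
  linarith

end MA3

open MA3

theorem ray_zero (u : Fin 4 → ℝ) : ray u 0 = 0 := by
  funext i; simp [ray]

theorem MA3.lift_ray {u : Fin 4 → ℝ} (hu : u ∈ Sph) (s : ℝ) : lift (ray u s) o = Real.cosh s := by
  have h1 : ∑ i, u i ^ 2 = 1 := hu
  rw [lift_inr]
  have h : 1 + ∑ i, ray u s i ^ 2 = Real.cosh s ^ 2 := by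
    simp only [ray, mul_pow]
    rw [← Finset.mul_sum, h1, Real.cosh_sq]; ring
  rw [h, Real.sqrt_sq (Real.cosh_pos s).le]

theorem MA3.ch_ray {u : Fin 4 → ℝ} (hu : u ∈ Sph) (s t : ℝ) :
    ch (ray u s) (ray u t) = Real.cosh (s - t) := by
  have h1 : ∑ i, u i ^ 2 = 1 := hu
  unfold ch
  rw [bl_apply, lift_ray hu, lift_ray hu, Real.cosh_sub]
  have h : ∑ i : Fin 4, lift (ray u s) (Sum.inl i) * lift (ray u t) (Sum.inl i)
      = Real.sinh s * Real.sinh t := by
    simp only [lift_inl, ray]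
    have : ∀ i : Fin 4, Real.sinh s * u i * (Real.sinh t * u i)
        = (Real.sinh s * Real.sinh t) * u i ^ 2 := fun i => by ring
    simp only [this]
    rw [← Finset.mul_sum, h1, mul_one]
  rw [h]; ring

theorem hd_ray {u : Fin 4 → ℝ} (hu : u ∈ Sph) (s t : ℝ) : hd (ray u s) (ray u t) = |s - t| := by
  unfold hd
  rw [ch_ray hu, ← Real.cosh_abs, Real.arcosh_cosh (abs_nonneg _)]

theorem tendsto_kp_ray {u : Fin 4 → ℝ} (hu : u ∈ Sph) :
    Tendsto (fun s => kp (ray u s)) atTop (𝓝 u) := by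
  rw [tendsto_pi_nhds]
  intro i
  have h : ∀ s, kp (ray u s) i = u i - (Real.exp (-s) / Real.cosh s) * u i := by
    intro s
    rw [kp_apply, lift_ray hu]
    have hc := (Real.cosh_pos s).ne'
    have : Real.exp (-s) = Real.cosh s - Real.sinh s := by
      rw [Real.cosh_eq, Real.sinh_eq]; ring
    rw [this]
    simp only [ray]
    field_simp
    ring
  simp only [h]
  have h2 : Tendsto (fun s : ℝ => Real.exp (-s) / Real.cosh s) atTop (𝓝 0) := by
    have h3 : Tendsto (fun s : ℝ => Real.exp (-s)) atTop (𝓝 0) := Real.tendsto_exp_neg_atTop_nhds_zero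
    refine squeeze_zero (fun s => ?_) (fun s => ?_) h3
    · exact div_nonneg (Real.exp_pos _).le (Real.cosh_pos _).le
    · exact div_le_self (Real.exp_pos _).le (Real.one_le_cosh s)
  have h4 := (h2.mul_const (u i)).const_sub (u i)
  simpa using h4

theorem bb_kp (x y : X) : bb (kp x) (kp y) = ch x y / (ch 0 x * ch 0 y) := by
  rw [cz, cz]
  unfold bb ch
  rw [bl_apply]
  simp only [kp_apply, lift_inl]
  have hx := (lo_pos x).ne'
  have hy := (lo_pos y).ne'
  have : ∀ i : Fin 4, x i / lift x o * (y i / lift y o) = (x i * y i) / (lift x o * lift y o) :=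
    fun i => by field_simp
  simp only [this]
  rw [← Finset.sum_div]
  field_simp
  ring

theorem kp_norm_lt (x : X) : ∑ i, kp x i ^ 2 < 1 := by
  rw [sum_kp_sq, div_lt_one (by have := one_le_norm x; linarith)]
  linarith

theorem bb_kp_le (x y : X) : bb (kp x) (kp y) ≤ 4 * Real.exp (-2 * gp x y 0) := by
  rw [bb_kp, ← cosh_hd x y, ← cosh_hd 0 x, ← cosh_hd 0 y]
  have h1 := le_exp (hd_nonneg x y)
  have h2 := exp_le (hd 0 x)
  have h3 := exp_le (hd 0 y)
  have hp : 0 < Real.exp (hd 0 x) / 2 := by positivity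
  have hq : 0 < Real.exp (hd 0 y) / 2 := by positivity
  have h4 : Real.cosh (hd x y) / (Real.cosh (hd 0 x) * Real.cosh (hd 0 y))
      ≤ Real.exp (hd x y) / (Real.exp (hd 0 x) / 2 * (Real.exp (hd 0 y) / 2)) := by
    apply div_le_div₀ (Real.exp_pos _).le h1 (mul_pos hp hq)
    exact mul_le_mul h2 h3 hq.le (le_trans hp.le h2)
  refine h4.trans (le_of_eq ?_)
  have h5 : -2 * gp x y 0 = hd x y - hd 0 x - hd 0 y := by
    unfold gp; rw [hd_comm x 0, hd_comm y 0]; ring
  rw [h5, Real.exp_sub, Real.exp_sub]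
  have := (Real.exp_pos (hd 0 x)).ne'
  have := (Real.exp_pos (hd 0 y)).ne'
  field_simp
  ring

theorem le_bb_kp (x y : X) : 1 / 2 * Real.exp (-2 * gp x y 0) ≤ bb (kp x) (kp y) := by
  rw [bb_kp, ← cosh_hd x y, ← cosh_hd 0 x, ← cosh_hd 0 y]
  have h1 := exp_le (hd x y)
  have h2 := le_exp (hd_nonneg 0 x)
  have h3 := le_exp (hd_nonneg 0 y)
  have hp : 0 < Real.cosh (hd 0 x) := Real.cosh_pos _
  have hq : 0 < Real.cosh (hd 0 y) := Real.cosh_pos _
  have h4 : Real.exp (hd x y) / 2 / (Real.exp (hd 0 x) * Real.exp (hd 0 y))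
      ≤ Real.cosh (hd x y) / (Real.cosh (hd 0 x) * Real.cosh (hd 0 y)) := by
    apply div_le_div₀ (Real.cosh_pos _).le h1 (mul_pos hp hq)
    exact mul_le_mul h2 h3 hq.le (Real.exp_pos _).le
  refine le_trans (le_of_eq ?_) h4
  have h5 : -2 * gp x y 0 = hd x y - hd 0 x - hd 0 y := by
    unfold gp; rw [hd_comm x 0, hd_comm y 0]; ring
  rw [h5, Real.exp_sub, Real.exp_sub]
  have := (Real.exp_pos (hd 0 x)).ne'
  have := (Real.exp_pos (hd 0 y)).ne'
  field_simp

theorem MA3.sum_sq_le {u v : Fin 4 → ℝ} (hu : ∑ i, u i ^ 2 ≤ 1) (hv : ∑ i, v i ^ 2 ≤ 1) :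
    ∑ i, (u i - v i) ^ 2 ≤ 2 * bb u v := by
  unfold bb
  have : ∀ i, (u i - v i) ^ 2 = u i ^ 2 + v i ^ 2 - 2 * (u i * v i) := fun i => by ring
  simp only [this]
  rw [Finset.sum_sub_distrib, Finset.sum_add_distrib, ← Finset.mul_sum]
  linarith

theorem dist_kp (x y : X) (i : Fin 4) : |kp x i - kp y i| ≤ 3 * Real.exp (- gp x y 0) := by
  have h1 := MA3.sum_sq_le (kp_norm_lt x).le (kp_norm_lt y).le
  have h2 : (kp x i - kp y i) ^ 2 ≤ ∑ j, (kp x j - kp y j) ^ 2 :=
    Finset.single_le_sum (f := fun j => (kp x j - kp y j) ^ 2) (fun j _ => sq_nonneg _)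
      (Finset.mem_univ i)
  have h3 := bb_kp_le x y
  have h4 : Real.exp (-2 * gp x y 0) = Real.exp (- gp x y 0) ^ 2 := by
    rw [← Real.exp_nat_mul]; congr 1; push_cast; ring
  rw [h4] at h3
  have hpos := Real.exp_pos (- gp x y 0)
  apply abs_le_of_sq_le_sq _ (by positivity)
  nlinarith [sq_nonneg (Real.exp (- gp x y 0))]

theorem MA3.tendsto_bb {x y : ℕ → X} {u : Fin 4 → ℝ} (hu : u ∈ Sph)
    (hx : Tendsto (fun n => kp (x n)) atTop (𝓝 u)) (hy : Tendsto (fun n => kp (y n)) atTop (𝓝 u)) :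
    Tendsto (fun n => bb (kp (x n)) (kp (y n))) atTop (𝓝 0) := by
  rw [tendsto_pi_nhds] at hx hy
  have h := tendsto_finsetSum (Finset.univ : Finset (Fin 4)) (fun i _ => (hx i).mul (hy i))
  have h1 : ∑ i, u i * u i = 1 := by
    have h2 : ∑ i, u i ^ 2 = 1 := hu
    rw [← h2]; exact Finset.sum_congr rfl (fun i _ => by ring)
  rw [h1] at h
  have h3 := h.const_sub 1
  simpa [bb] using h3

/-- sequences converging to the same boundary point -/
theorem tendsto_gp {x y : ℕ → X} {u : Fin 4 → ℝ} (hu : u ∈ Sph)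
    (hx : Tendsto (fun n => kp (x n)) atTop (𝓝 u)) (hy : Tendsto (fun n => kp (y n)) atTop (𝓝 u)) :
    Tendsto (fun n => gp (x n) (y n) 0) atTop atTop := by
  have h := MA3.tendsto_bb hu hx hy
  rw [tendsto_atTop]
  intro b
  have h1 : ∀ᶠ n in atTop, bb (kp (x n)) (kp (y n)) < 1 / 2 * Real.exp (-2 * b) :=
    h.eventually_lt_const (by positivity)
  filter_upwards [h1] with n hn
  have h2 := le_bb_kp (x n) (y n)
  have h3 : Real.exp (-2 * gp (x n) (y n) 0) < Real.exp (-2 * b) := by linarith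
  rw [Real.exp_lt_exp] at h3
  linarith

/-- a sequence at bounded distance converges to the same boundary point -/
theorem tendsto_of_bdd {x y : ℕ → X} {u : Fin 4 → ℝ} (hu : u ∈ Sph) {a : ℝ}
    (hx : Tendsto (fun n => kp (x n)) atTop (𝓝 u)) (h : ∀ n, hd (x n) (y n) ≤ a) :
    Tendsto (fun n => kp (y n)) atTop (𝓝 u) := by
  have h1 := tendsto_gp hu hx hx
  have h2 : Tendsto (fun n => gp (x n) (y n) 0) atTop atTop := by
    have h3 : Tendsto (fun n => (gp (x n) (x n) 0 - a) / 2) atTop atTop := by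
      apply Tendsto.atTop_div_const (by norm_num)
      exact tendsto_atTop_add_const_right atTop (-a) h1
    refine tendsto_atTop_mono (fun n => ?_) h3
    unfold gp
    rw [hd_self]
    have := hd_nonneg (y n) 0
    have := h n
    linarith
  rw [tendsto_pi_nhds] at hx ⊢
  intro i
  have h4 : Tendsto (fun n => 3 * Real.exp (- gp (x n) (y n) 0)) atTop (𝓝 0) := by
    have := (Real.tendsto_exp_neg_atTop_nhds_zero.comp h2).const_mul 3
    simpa using this
  have h5 : Tendsto (fun n => kp (y n) i - kp (x n) i) atTop (𝓝 0) := by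
    apply squeeze_zero_norm _ h4
    intro n
    rw [Real.norm_eq_abs, abs_sub_comm]
    exact dist_kp (x n) (y n) i
  have h6 := h5.add (hx i)
  simpa using h6

end Pool.Agent.helper88.WB
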